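import Mathlib
import Pool.Agent.H429R2.Auto
import Pool.Agent.H145R3.AAC2

set_option autoImplicit false

/-!
# Almost every finite configuration shows all words at all positions of its window

Among the `6^(2N+1)` configurations supported in `[-N, N]`, all but an explicit, exponentially small
proportion have orbits (run for linear time) that show every word of length `L` at every position
of `[-N, R]`.

Proof: at position `j` and a suitable time the window shows `⌊m 3^a / 2^t⌋` modulo `6^L`, where `m`
is the number written in `[-N, N]`; whatever the `e` low bits of `m` are, one choice of the next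
`3L` bits makes this equal to the wanted residue (Chinese remainder theorem), so the exceptional `m`
are counted by `(8^L - 1)^K` out of `8^(LK)` blocks.
-/

namespace Pool.Agent.Results.MP_cc0c1a_nt.AlmostAllConfigurations

open Pool.Agent.H429R2.Auto Pool.Agent.H145R3.AAC

theorem result (L : ℕ) (hL : 1 ≤ L) (N R : ℕ) :
    ({x : Conf | ∀ i : ℤ, (N : ℤ) < |i| → x i = 0} : Set Conf).ncard = 6 ^ (2 * N + 1) ∧
    (Exc L N R).Finite ∧
    ((Exc L N R).ncard : ℝ) ≤
      2 * (N + R + 1) * 6 ^ L * (1 - 1 / 8 ^ L) ^ (N / (3 * L)) * 6 ^ (2 * N + 1) :=
  ⟨win_card N, main L hL N R⟩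

end Pool.Agent.Results.MP_cc0c1a_nt.AlmostAllConfigurations
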