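import Mathlib
import Pool.Agent.H429R2.Auto
import Pool.Agent.H639R3.PQ.Main

set_option autoImplicit false

/-!
# MP_cc0c1a_nt: every progression of numbers, every position

For all `L, d, m` and `δ > 0` there is `N₀` such that in every polynomial progression
`P(0), P(1), …, P(N-1)` of real numbers with `N ≥ N₀` (`P` any nonconstant real polynomial of degree
at most `d`) and for every set `J` of at most `m` positions, all but at most `δ N` of the numbers have
the following property: the orbit of the configuration representing the number in base 6 shows every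
word of length at most `L` at every position of `J`, infinitely often.

The bound `N₀` does not depend on the positions nor on the progression. The proof is a uniform form
of Vijayaraghavan's argument (the tails of `ξ (3/2)^n` mod 1, `ξ ≠ 0`, cannot be covered by `K`
intervals of length `c(K)`), followed by a second moment argument.
-/

namespace Pool.Agent.Results.MP_cc0c1a_nt.EveryProgression

open Pool.Agent.H429R2.Auto Filter Polynomial

/-- The configuration `x` shows the word `w` starting at position `j`. -/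
def Shows (x : Conf) (w : List (Fin 6)) (j : ℤ) : Prop :=
  ∀ (i : ℕ) (h : i < w.length), x (j + i) = w[i]

/-- the number coding the word -/
def code (w : List (Fin 6)) : ℕ :=
  ∑ r ∈ Finset.range w.length, ((w.getD (w.length - 1 - r) 0 : Fin 6) : ℕ) * 6 ^ r

theorem code_lt (w : List (Fin 6)) : code w < 6 ^ w.length :=
  sum_lt w.length fun r => w.getD (w.length - 1 - r) 0

theorem shows_of {x : Conf} {β : ℝ} (hβ : 0 ≤ β) (hx : Rep x β) (w : List (Fin 6)) (j : ℤ) (n : ℕ)
    (h : ⌊(6 : ℝ) ^ (j + w.length - 1) * ((3 / 2) ^ n * β)⌋₊ % 6 ^ w.length = code w) :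
    Shows (F^[n] x) w j := by
  intro i hi
  have h1 := letter (rep_iter hβ hx n) j w.length (w.length - 1 - i) (by omega)
  rw [h] at h1
  have h2 := digits_sum w.length (fun r => w.getD (w.length - 1 - r) 0) (w.length - 1 - i) (by omega)
  have e1 : j + (w.length : ℤ) - 1 - ((w.length - 1 - i : ℕ) : ℤ) = j + i := by omega
  rw [e1] at h1
  have e2 : w.length - 1 - (w.length - 1 - i) = i := by omega
  unfold code at h1
  rw [h2] at h1
  simp only [e2] at h1
  have h3 : w.getD i 0 = w[i] := by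
    rw [List.getD_eq_getElem?_getD, List.getElem?_eq_getElem hi]; rfl
  rw [h3] at h1
  exact Fin.ext h1

/-- a value near the centre of the interval of the word shows the word -/
theorem shows_near {x : Conf} {β : ℝ} (hβ : 0 ≤ β) (hx : Rep x β) (w : List (Fin 6)) (j : ℤ) (n : ℕ)
    (ε : ℝ) (hε : (6 : ℝ) ^ w.length * ε ≤ 1 / 4)
    (h : |((3 / 2 : ℝ) ^ n * ((6 : ℝ) ^ (j - 1) * β) - ((code w : ℝ) + 1 / 2) / 6 ^ w.length)
      - round ((3 / 2 : ℝ) ^ n * ((6 : ℝ) ^ (j - 1) * β) - ((code w : ℝ) + 1 / 2) / 6 ^ w.length)|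
        < ε) :
    Shows (F^[n] x) w j := by
  apply shows_of hβ hx
  set z : ℤ := round ((3 / 2 : ℝ) ^ n * ((6 : ℝ) ^ (j - 1) * β)
    - ((code w : ℝ) + 1 / 2) / 6 ^ w.length) with hz
  set A : ℝ := (6 : ℝ) ^ w.length with hA
  have hA0 : 0 < A := by positivity
  set V : ℝ := (6 : ℝ) ^ (j + w.length - 1) * ((3 / 2) ^ n * β) with hV
  have hV0 : 0 ≤ V := by positivity
  have hVe : (3 / 2 : ℝ) ^ n * ((6 : ℝ) ^ (j - 1) * β) = V / A := by
    rw [hV, hA, show j + (w.length : ℤ) - 1 = (j - 1) + (w.length : ℤ) by ring,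
      zpow_add₀ (by norm_num), zpow_natCast]
    field_simp
  rw [hVe] at h
  have h1 : |V - (A * z + code w + 1 / 2)| < 1 / 4 := by
    have e : V - (A * z + code w + 1 / 2) = A * (V / A - ((code w : ℝ) + 1 / 2) / A - z) := by
      field_simp
      ring
    rw [e, abs_mul, abs_of_pos hA0]
    calc _ < A * ε := mul_lt_mul_of_pos_left h hA0
      _ ≤ 1 / 4 := hε
  obtain ⟨c1, c2⟩ := abs_lt.1 h1
  have hAn : A = ((6 ^ w.length : ℕ) : ℝ) := by rw [hA]; push_cast; rfl
  have hc := code_lt w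
  have hz0 : 0 ≤ z := by
    by_contra hneg
    push Not at hneg
    have h2 : (z : ℝ) ≤ -1 := by exact_mod_cast (by omega : z ≤ -1)
    have h3 : (code w : ℝ) + 1 ≤ A := by rw [hAn]; exact_mod_cast hc
    nlinarith
  obtain ⟨y, hy⟩ := Int.eq_ofNat_of_zero_le hz0
  have hzy : (z : ℝ) = y := by rw [hy]; simp
  have hfl : ⌊V⌋₊ = 6 ^ w.length * y + code w := by
    rw [Nat.floor_eq_iff hV0]
    push_cast
    rw [hzy] at c1 c2
    constructor <;> linarith
  rw [hfl, Nat.mul_add_mod, Nat.mod_eq_of_lt hc]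

open Classical in
theorem result (L d m : ℕ) (δ : ℝ) (hδ : 0 < δ) :
    ∃ N₀ : ℕ, ∀ (J : Finset ℤ) (P : ℝ[X]), J.card ≤ m → 1 ≤ P.natDegree → P.natDegree ≤ d →
      ∀ N ≥ N₀, (((Finset.range N).filter (fun l : ℕ => ∃ x : Conf, 0 ≤ P.eval (l : ℝ) ∧
        Rep x (P.eval (l : ℝ)) ∧ ∃ j ∈ J, ∃ w : List (Fin 6), w.length ≤ L ∧
          ¬ ∃ᶠ n : ℕ in atTop, Shows (F^[n] x) w j)).card : ℝ) ≤ δ * N := by
  set ε : ℝ := 1 / (4 * 6 ^ L) with hε
  have hε0 : 0 < ε := by positivity
  have hδ' : 0 < δ / (m + 1) := by positivity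
  obtain ⟨N₀, hN₀⟩ := Pool.Agent.H639R3.PQ.main' 3 2 (by norm_num) (by norm_num) (by norm_num) d ε
    (δ / (m + 1)) hε0 hδ'
  refine ⟨N₀, fun J P hJ h1 h2 N hN => ?_⟩
  set Bad : ℤ → Finset ℕ := fun j => (Finset.range N).filter (fun l : ℕ => ¬ ∀ γ : ℝ,
    ∃ᶠ n : ℕ in atTop, |(((3 : ℕ) / (2 : ℕ) : ℝ) ^ n * (C ((6 : ℝ) ^ (j - 1)) * P).eval (l : ℝ) - γ)
      - round (((3 : ℕ) / (2 : ℕ) : ℝ) ^ n * (C ((6 : ℝ) ^ (j - 1)) * P).eval (l : ℝ) - γ)| < ε)
    with hBad
  have hcard : ∀ j, ((Bad j).card : ℝ) ≤ δ / (m + 1) * N := by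
    intro j
    have hdeg : (C ((6 : ℝ) ^ (j - 1)) * P).natDegree = P.natDegree :=
      natDegree_C_mul (by positivity)
    refine hN₀ (C ((6 : ℝ) ^ (j - 1)) * P) (by rw [hdeg]; exact h1) (by rw [hdeg]; exact h2) N hN
      (Bad j) (Finset.filter_subset _ _) ?_
    intro l hl
    exact (Finset.mem_filter.1 hl).2
  have hsub : (Finset.range N).filter (fun l : ℕ => ∃ x : Conf, 0 ≤ P.eval (l : ℝ) ∧
        Rep x (P.eval (l : ℝ)) ∧ ∃ j ∈ J, ∃ w : List (Fin 6), w.length ≤ L ∧
          ¬ ∃ᶠ n : ℕ in atTop, Shows (F^[n] x) w j) ⊆ J.biUnion Bad := by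
    intro l hl
    obtain ⟨hl1, x, hx0, hx, j, hj, w, hw, hn⟩ := Finset.mem_filter.1 hl
    rw [Finset.mem_biUnion]
    refine ⟨j, hj, Finset.mem_filter.2 ⟨hl1, fun hall => hn ?_⟩⟩
    refine (hall (((code w : ℝ) + 1 / 2) / 6 ^ w.length)).mono fun n hn2 => ?_
    refine shows_near hx0 hx w j n ε ?_ ?_
    · rw [hε]
      have h6 : (6 : ℝ) ^ w.length ≤ 6 ^ L := pow_le_pow_right₀ (by norm_num) hw
      rw [mul_one_div, div_le_iff₀ (by positivity)]
      linarith
    · rw [eval_mul, eval_C] at hn2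
      norm_num at hn2 ⊢
      exact hn2
  have hNr : (0 : ℝ) ≤ N := Nat.cast_nonneg N
  have hJr : (J.card : ℝ) ≤ m := by exact_mod_cast hJ
  calc _ ≤ ((J.biUnion Bad).card : ℝ) := by exact_mod_cast Finset.card_le_card hsub
    _ ≤ ((∑ j ∈ J, (Bad j).card : ℕ) : ℝ) := by exact_mod_cast Finset.card_biUnion_le
    _ = ∑ j ∈ J, ((Bad j).card : ℝ) := by push_cast; rfl
    _ ≤ ∑ _j ∈ J, δ / (m + 1) * N := Finset.sum_le_sum fun j _ => hcard j
    _ = J.card * (δ / (m + 1) * N) := by rw [Finset.sum_const, nsmul_eq_mul]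
    _ ≤ (m + 1) * (δ / (m + 1) * N) := by
        apply mul_le_mul_of_nonneg_right (by linarith) (by positivity)
    _ = δ * N := by field_simp

end Pool.Agent.Results.MP_cc0c1a_nt.EveryProgression
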